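import Pool.Agent.Mg.F2e8011.G70f6d4

namespace Pool.Agent.Results.MP_2e8011_lc.NPComplete

open Pool.Agent.MP_2e8011_lc

theorem result : ∀ j : ℕ, 12 ≤ j →
    N793a5b8e.IsCompleteFor N68a2faeb.NP (hamiltonianFreeLanguage j) ∧
    ∀ L ∈ N68a2faeb.NP, ∃ f : List Bool → List Bool, N68a2faeb.IsPolyTime f ∧
      ∀ x, ∃ (n : ℕ) (G : SimpleGraph (Fin n)), f x = adjacencyBits G ∧ (treeH j).Free G ∧
        (L x = true ↔ HasHamiltonianCycle G) :=
  fun _ hj => ⟨complete hj, fun _ hL => hardness hj hL⟩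

end Pool.Agent.Results.MP_2e8011_lc.NPComplete
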