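import Pool.Agent.MP_2e8011_m.Red

namespace Pool.Agent.Results.MP_2e8011_lc.SixToEleven

open Pool.Agent.MP_2e8011_lc

theorem result :
    (∀ j : ℕ, 6 ≤ j → j ≤ 11 →
      N793a5b8e.IsCompleteFor N68a2faeb.NP (hamiltonianFreeLanguage j)) ∧
    ∀ L ∈ N68a2faeb.NP, ∃ f : List Bool → List Bool, N68a2faeb.IsPolyTime f ∧
      ∀ x, ∃ (n : ℕ) (G : SimpleGraph (Fin n)), f x = adjacencyBits G ∧ G.Colorable 2 ∧
        (∀ v, (G.neighborSet v).ncard ≤ 3) ∧ (∀ j : ℕ, 6 ≤ j → j ≤ 11 → (treeH j).Free G) ∧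
        (L x = true ↔ HasHamiltonianCycle G) :=
  ⟨fun _ h6 hj => MP_2e8011_m.complete_small h6 hj, fun _ hL => MP_2e8011_m.hardness3 hL⟩

end Pool.Agent.Results.MP_2e8011_lc.SixToEleven
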